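import Pool.Agent.H3.AV.Lem

/-!
# BCH: base change of a homogeneous prime ideal
-/

set_option autoImplicit false

namespace Pool.Agent.H3.AV

open MvPolynomial Pool.Agent.H30.AV

lemma rename_ev {k L A s τ : Type} [Field k] [Field L] [Algebra k L] (α : A → L) (u : s → τ)
    (G : MvPolynomial A (MvPolynomial s k)) :
    rename u (ev α G) = ev α (MvPolynomial.map (rename u : MvPolynomial s k →ₐ[k] _).toRingHom G) :=
    by
  rw [ev_eq, ev_eq]
  have h : ((rename u : MvPolynomial s L →ₐ[L] MvPolynomial τ L).toRingHom).comp (evH α) =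
      (evH α).comp (MvPolynomial.map (rename u : MvPolynomial s k →ₐ[k] _).toRingHom) := by
    refine MvPolynomial.ringHom_ext ?_ ?_
    · intro p
      simp only [RingHom.comp_apply, evH, coe_eval₂Hom, eval₂_C, map_C]
      exact (map_rename (algebraMap k L) u p).symm
    · intro a
      simp [evH]
  exact RingHom.congr_fun h G

/-- independence of the variables modulo a prime ideal -/
lemma indep_iff {k s τ : Type} [Field k] (P : Ideal (MvPolynomial τ k)) (u : s → τ) :
    AlgebraicIndependent k (fun i => Ideal.Quotient.mk P (X (u i))) ↔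
      ∀ p : MvPolynomial s k, rename u p ∈ P → p = 0 := by
  have h : ∀ p : MvPolynomial s k, aeval (fun i => Ideal.Quotient.mk P (X (u i))) p =
      Ideal.Quotient.mk P (rename u p) := by
    intro p
    have h1 : (aeval (fun i => Ideal.Quotient.mk P (X (u i))) : MvPolynomial s k →ₐ[k] _) =
        (Ideal.Quotient.mkₐ k P).comp (rename u) := by
      ext i
      simp
    rw [h1]
    rfl
  unfold AlgebraicIndependent
  rw [injective_iff_map_eq_zero]
  simp only [h, Ideal.Quotient.eq_zero_iff_mem]

lemma trdeg_le {k L τ : Type} [Field k] [Field L] [Finite τ] (P : Ideal (MvPolynomial τ k))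
    (P' : Ideal (MvPolynomial τ L)) (hP : P.IsPrime)
    (h : ∀ (s : Type) (u : s → τ), AlgebraicIndependent k (fun i => Ideal.Quotient.mk P (X (u i))) →
      AlgebraicIndependent L (fun i => Ideal.Quotient.mk P' (X (u i)))) :
    Algebra.trdeg k (MvPolynomial τ k ⧸ P) ≤ Algebra.trdeg L (MvPolynomial τ L ⧸ P') := by
  classical
  set x : τ → MvPolynomial τ k ⧸ P := fun i => Ideal.Quotient.mk P (X i) with hx
  have hadj : Algebra.adjoin k (Set.range x) = ⊤ := by
    have h1 : Algebra.adjoin k (Set.range x) =
        (Algebra.adjoin k (Set.range (X : τ → MvPolynomial τ k))).map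
          (Ideal.Quotient.mkₐ k P) := by
      rw [AlgHom.map_adjoin, ← Set.range_comp]
      rfl
    rw [h1, adjoin_range_X, Algebra.map_top, AlgHom.range_eq_top]
    exact Ideal.Quotient.mkₐ_surjective k P
  have : Algebra.IsAlgebraic (Algebra.adjoin k (Set.range x)) (MvPolynomial τ k ⧸ P) := by
    refine ⟨fun a => ?_⟩
    have h2 : a ∈ Algebra.adjoin k (Set.range x) := by rw [hadj]; trivial
    exact isAlgebraic_algebraMap (⟨a, h2⟩ : Algebra.adjoin k (Set.range x))
  obtain ⟨t, ht, hb⟩ := exists_isTranscendenceBasis_subset (R := k) (Set.range x)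
  have hu : ∀ i : t, ∃ j : τ, x j = i := fun i => ht i.2
  choose u hu using hu
  have h3 : AlgebraicIndependent k (fun i : t => Ideal.Quotient.mk P (X (u i))) := by
    have h4 : (fun i : t => Ideal.Quotient.mk P (X (u i))) = ((↑) : t → _) := funext hu
    rw [h4]
    exact hb.1
  rw [← hb.cardinalMk_eq_trdeg]
  exact (h t u h3).cardinalMk_le_trdeg

/-- BCH -/
theorem pf_BCH : T_BCH := by
  intro k _ A τ _ _ P hP hH L _ _ α hα hgen
  have := hP
  let E := FractionRing (MvPolynomial τ k ⧸ P)
  let Om := FractionRing (MvPolynomial A E)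
  let qE : MvPolynomial τ k →+* E :=
    (algebraMap (MvPolynomial τ k ⧸ P) E).comp (Ideal.Quotient.mk P)
  have hqE : ∀ p, qE p = 0 ↔ p ∈ P := fun p => by
    show algebraMap (MvPolynomial τ k ⧸ P) E (Ideal.Quotient.mk P p) = 0 ↔ _
    rw [map_eq_zero_iff _ (IsFractionRing.injective _ _), Ideal.Quotient.eq_zero_iff_mem]
  let φ : MvPolynomial A k →+* Om :=
    (algebraMap (MvPolynomial A E) Om).comp (MvPolynomial.map (qE.comp C))
  have hφ : Function.Injective φ :=
    (IsFractionRing.injective (MvPolynomial A E) Om).comp
      (map_injective _ (qE.comp C).injective)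
  obtain ⟨ψ, hψ⟩ := exists_lift α hα hgen φ hφ
  let Φ : MvPolynomial τ L →+* Om :=
    eval₂Hom ψ (fun x => algebraMap (MvPolynomial A E) Om (C (qE (X x))))
  have hΦ : ∀ G : MvPolynomial A (MvPolynomial τ k), Φ (ev α G) =
      algebraMap (MvPolynomial A E) Om (MvPolynomial.map qE G) := by
    have h : Φ.comp (evH α) = (algebraMap (MvPolynomial A E) Om).comp (MvPolynomial.map qE) := by
      refine MvPolynomial.ringHom_ext' ?_ ?_
      · refine MvPolynomial.ringHom_ext ?_ ?_
        · intro c
          have h1 : evH α (C (C c : MvPolynomial τ k)) = C (aeval α (C c : MvPolynomial A k)) := by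
            rw [← ev_map_C, map_C]; rfl
          simp only [RingHom.comp_apply]
          rw [h1]
          simp only [Φ, coe_eval₂Hom, eval₂_C]
          rw [hψ]
          simp only [φ, RingHom.comp_apply, map_C]
        · intro x
          simp [Φ, evH]
      · intro a
        have h1 : evH α (X a : MvPolynomial A (MvPolynomial τ k)) =
            C (aeval α (X a : MvPolynomial A k)) := by
          rw [← ev_map_C, map_X]; rfl
        simp only [RingHom.comp_apply]
        rw [h1]
        simp only [Φ, coe_eval₂Hom, eval₂_C]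
        rw [hψ]
        simp only [φ, RingHom.comp_apply, map_X]
    exact fun G => RingHom.congr_fun h G
  have hmem : ∀ G : MvPolynomial A (MvPolynomial τ k), ev α G ∈ RingHom.ker Φ ↔
      ∀ m, coeff m G ∈ P := by
    intro G
    rw [RingHom.mem_ker, hΦ, map_eq_zero_iff _ (IsFractionRing.injective _ _)]
    constructor
    · intro h m
      have h1 := congrArg (coeff m) h
      rw [coeff_map, coeff_zero, hqE] at h1
      exact h1
    · intro h
      ext m
      rw [coeff_map, coeff_zero, hqE]
      exact h m
  have hunit : ∀ (z : L) (g : MvPolynomial τ L), z ≠ 0 → C z * g ∈ RingHom.ker Φ →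
      g ∈ RingHom.ker Φ := by
    intro z g hz h
    have h1 : g = C z⁻¹ * (C z * g) := by
      rw [← mul_assoc, ← C_mul, inv_mul_cancel₀ hz, C_1, one_mul]
    rw [h1]
    exact Ideal.mul_mem_left _ _ h
  refine ⟨RingHom.ker Φ, RingHom.ker_isPrime Φ, ?_, ?_, hmem⟩
  · intro g hg d
    obtain ⟨b, G, h1, h2⟩ := den α hgen g
    have h3 : ∀ m, coeff m G ∈ P := (hmem G).1 (h2 ▸ Ideal.mul_mem_left _ _ hg)
    refine hunit _ _ h1 ?_
    rw [← homogeneousComponent_C_mul, h2, ← ev_hc, hmem]
    intro m
    rw [coeff_hc]
    exact hH _ (h3 m) d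
  · have hind : ∀ (s : Type) (u : s → τ),
        AlgebraicIndependent k (fun i => Ideal.Quotient.mk P (X (u i))) ↔
        AlgebraicIndependent L (fun i => Ideal.Quotient.mk (RingHom.ker Φ) (X (u i))) := by
      intro s u
      rw [indep_iff, indep_iff]
      constructor
      · intro h p hp
        obtain ⟨b, G, h1, h2⟩ := den α hgen p
        have h3 : rename u (ev α G) ∈ RingHom.ker Φ := by
          rw [← h2, map_mul]
          exact Ideal.mul_mem_left _ _ hp
        rw [rename_ev, hmem] at h3
        have h4 : G = 0 := by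
          ext1 m
          have h5 := h3 m
          rw [coeff_map] at h5
          rw [coeff_zero]
          exact h _ h5
        rw [h4, ev_eq, map_zero] at h2
        rcases mul_eq_zero.1 h2 with h5 | h5
        · exact absurd ((map_eq_zero_iff C (C_injective s L)).1 h5) h1
        · exact h5
      · intro h p hp
        have h1 : rename u (MvPolynomial.map (algebraMap k L) p) ∈ RingHom.ker Φ := by
          rw [← map_rename, ← ev_C α, hmem]
          intro m
          classical
          rw [coeff_C]
          split_ifs
          · exact hp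
          · exact P.zero_mem
        have h2 := h _ h1
        exact (map_eq_zero_iff _ (map_injective _ (algebraMap k L).injective)).1 h2
    exact le_antisymm (trdeg_le _ _ (RingHom.ker_isPrime Φ) fun s u => (hind s u).2)
      (trdeg_le _ _ hP fun s u => (hind s u).1)

end Pool.Agent.H3.AV
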