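import Pool.Agent.H30.AV.Targets2

/-!
# Substitution in polynomials with polynomial coefficients, denominators, homogeneous components
-/

set_option autoImplicit false

namespace Pool.Agent.H3.AV

open MvPolynomial Pool.Agent.H30.AV

section EV

variable {k L A τ : Type} [Field k] [Field L] [Algebra k L] (α : A → L)

/-- `ev` as a ring homomorphism -/
noncomputable def evH : MvPolynomial A (MvPolynomial τ k) →+* MvPolynomial τ L :=
  eval₂Hom (MvPolynomial.map (algebraMap k L)) (fun v => C (α v))

lemma ev_eq (G : MvPolynomial A (MvPolynomial τ k)) : ev α G = evH α G := rfl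

lemma ev_C (p : MvPolynomial τ k) : ev α (C p) = MvPolynomial.map (algebraMap k L) p := by
  rw [ev_eq]; simp [evH]

lemma ev_X (a : A) : ev α (X a : MvPolynomial A (MvPolynomial τ k)) = C (α a) := by
  rw [ev_eq]; simp [evH]

lemma ev_add (G H : MvPolynomial A (MvPolynomial τ k)) : ev α (G + H) = ev α G + ev α H := by
  simp only [ev_eq, map_add]

lemma ev_sub (G H : MvPolynomial A (MvPolynomial τ k)) : ev α (G - H) = ev α G - ev α H := by
  simp only [ev_eq, map_sub]

lemma ev_mul (G H : MvPolynomial A (MvPolynomial τ k)) : ev α (G * H) = ev α G * ev α H := by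
  simp only [ev_eq, map_mul]

lemma ev_pow (G : MvPolynomial A (MvPolynomial τ k)) (n : ℕ) : ev α (G ^ n) = ev α G ^ n := by
  simp only [ev_eq, map_pow]

lemma ev_sum {ι : Type} (s : Finset ι) (G : ι → MvPolynomial A (MvPolynomial τ k)) :
    ev α (∑ i ∈ s, G i) = ∑ i ∈ s, ev α (G i) := by
  simp only [ev_eq, map_sum]

lemma ev_prod {ι : Type} (s : Finset ι) (G : ι → MvPolynomial A (MvPolynomial τ k)) :
    ev α (∏ i ∈ s, G i) = ∏ i ∈ s, ev α (G i) := by
  simp only [ev_eq, map_prod]

lemma ev_monomial (m : A →₀ ℕ) (c : MvPolynomial τ k) :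
    ev α (monomial m c) = C (m.prod fun a e => α a ^ e) *
      MvPolynomial.map (algebraMap k L) c := by
  unfold ev
  rw [eval₂_monomial, mul_comm, map_finsuppProd]
  simp only [map_pow]

lemma ev_map_C (f : MvPolynomial A k) :
    ev α (MvPolynomial.map (C : k →+* MvPolynomial τ k) f) = C (aeval α f) := by
  unfold ev
  rw [eval₂_map, aeval_def, eval₂_comp_left C]
  congr 1
  ext x
  simp

/-- common denominators -/
lemma den (hgen : ∀ z : L, ∃ f g : MvPolynomial A k, aeval α g ≠ 0 ∧
    z * aeval α g = aeval α f) (g : MvPolynomial τ L) :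
    ∃ (b : MvPolynomial A k) (G : MvPolynomial A (MvPolynomial τ k)), aeval α b ≠ 0 ∧
      C (aeval α b) * g = ev α G := by
  induction g using MvPolynomial.induction_on with
  | C z =>
    obtain ⟨f, h, h1, h2⟩ := hgen z
    exact ⟨h, MvPolynomial.map C f, h1, by rw [ev_map_C, ← C_mul, mul_comm, h2]⟩
  | add p q hp hq =>
    obtain ⟨b, G, h1, h2⟩ := hp
    obtain ⟨b', G', h1', h2'⟩ := hq
    refine ⟨b * b', MvPolynomial.map C b' * G + MvPolynomial.map C b * G', ?_, ?_⟩
    · rw [map_mul]; exact mul_ne_zero h1 h1'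
    · rw [ev_add, ev_mul, ev_mul, ev_map_C, ev_map_C, ← h2, ← h2', map_mul, C_mul]
      ring
  | mul_X p x hp =>
    obtain ⟨b, G, h1, h2⟩ := hp
    refine ⟨b, G * C (X x), h1, ?_⟩
    rw [ev_mul, ev_C, map_X, ← h2, mul_assoc]

/-- homogeneous components of the coefficients -/
noncomputable def hc (d : ℕ) (G : MvPolynomial A (MvPolynomial τ k)) :
    MvPolynomial A (MvPolynomial τ k) :=
  ∑ m ∈ G.support, monomial m (homogeneousComponent d (coeff m G))

lemma coeff_hc (d : ℕ) (G : MvPolynomial A (MvPolynomial τ k)) (m : A →₀ ℕ) :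
    coeff m (hc d G) = homogeneousComponent d (coeff m G) := by
  classical
  unfold hc
  rw [coeff_sum]
  simp only [coeff_monomial]
  rw [Finset.sum_ite_eq']
  split_ifs with h
  · rfl
  · rw [notMem_support_iff.1 h, map_zero]

lemma hcomp_map (d : ℕ) (p : MvPolynomial τ k) :
    homogeneousComponent d (MvPolynomial.map (algebraMap k L) p) =
      MvPolynomial.map (algebraMap k L) (homogeneousComponent d p) := by
  ext m
  rw [coeff_homogeneousComponent, coeff_map, coeff_map, coeff_homogeneousComponent]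
  split_ifs <;> simp

lemma ev_hc (d : ℕ) (G : MvPolynomial A (MvPolynomial τ k)) :
    ev α (hc d G) = homogeneousComponent d (ev α G) := by
  have h : ev α G = ∑ m ∈ G.support, ev α (monomial m (coeff m G)) := by
    rw [← ev_sum, support_sum_monomial_coeff]
  rw [h, map_sum]
  unfold hc
  rw [ev_sum]
  refine Finset.sum_congr rfl fun m _ => ?_
  rw [ev_monomial, ev_monomial, homogeneousComponent_C_mul, hcomp_map]

/-- common denominators for forms -/
lemma denH (hgen : ∀ z : L, ∃ f g : MvPolynomial A k, aeval α g ≠ 0 ∧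
    z * aeval α g = aeval α f) (g : MvPolynomial τ L) (N : ℕ) (hg : g.IsHomogeneous N) :
    ∃ (b : MvPolynomial A k) (G : MvPolynomial A (MvPolynomial τ k)), aeval α b ≠ 0 ∧
      (∀ m, (coeff m G).IsHomogeneous N) ∧ C (aeval α b) * g = ev α G := by
  obtain ⟨b, G, h1, h2⟩ := den α hgen g
  refine ⟨b, hc N G, h1, fun m => ?_, ?_⟩
  · rw [coeff_hc]; exact homogeneousComponent_isHomogeneous _ _
  · rw [ev_hc, ← h2, homogeneousComponent_C_mul, homogeneousComponent_eq_self hg]

lemma exists_lift {Om : Type} [Field Om] (hα : AlgebraicIndependent k α)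
    (hgen : ∀ z : L, ∃ f g : MvPolynomial A k, aeval α g ≠ 0 ∧
      z * aeval α g = aeval α f) (φ : MvPolynomial A k →+* Om) (hφ : Function.Injective φ) :
    ∃ ψ : L →+* Om, ∀ f, ψ (aeval α f) = φ f := by
  let _ : Algebra (MvPolynomial A k) L := (aeval α : MvPolynomial A k →ₐ[k] L).toRingHom.toAlgebra
  have hinj : Function.Injective (algebraMap (MvPolynomial A k) L) := hα
  have : IsFractionRing (MvPolynomial A k) L :=
    { map_units := fun y => by
        have h : (y : MvPolynomial A k) ≠ 0 := nonZeroDivisors.coe_ne_zero y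
        exact ((map_ne_zero_iff _ hinj).2 h).isUnit
      surj := fun z => by
        obtain ⟨f, g, h1, h2⟩ := hgen z
        have h3 : g ≠ 0 := fun h => h1 (by rw [h, map_zero])
        exact ⟨(f, ⟨g, mem_nonZeroDivisors_of_ne_zero h3⟩), h2⟩
      exists_of_eq := fun {x y} h => ⟨1, by rw [hinj h]⟩ }
  exact ⟨IsFractionRing.lift hφ, fun f => IsFractionRing.lift_algebraMap hφ f⟩

end EV

end Pool.Agent.H3.AV
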