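import Pool.Agent.H3.AV.Lem
import Pool.Agent.H30.AV.Targets3

/-!
# PEX: a form with zeros of high order on generic hyperplanes
-/

set_option autoImplicit false

namespace Pool.Agent.H3.AV

open MvPolynomial Pool.Agent.H30.AV Pool.Agent.H27.LV

/-- powers of an ideal with two generators -/
lemma pair_pow {R : Type} [CommRing R] (T T' : R) (w : ℕ) :
    (Ideal.span {T, T'}) ^ w ≤
      Ideal.span (Set.range fun j : Fin (w + 1) => T ^ (j : ℕ) * T' ^ (w - j)) := by
  induction w with
  | zero =>
    rw [pow_zero, Ideal.one_eq_top, top_le_iff, Ideal.eq_top_iff_one]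
    exact Ideal.subset_span ⟨0, by simp⟩
  | succ w ih =>
    rw [pow_succ]
    refine (Ideal.mul_mono_left ih).trans ?_
    rw [Ideal.span_mul_span', Ideal.span_le]
    rintro _ ⟨_, ⟨j, rfl⟩, z, hz, rfl⟩
    have hj := j.2
    rcases hz with rfl | hz
    · refine Ideal.subset_span ⟨⟨j + 1, by omega⟩, ?_⟩
      have h1 : w + 1 - (j + 1) = w - (j : ℕ) := by omega
      simp only [h1]
      ring
    · rw [Set.mem_singleton_iff] at hz
      subst hz
      refine Ideal.subset_span ⟨⟨j, by omega⟩, ?_⟩
      have h1 : w + 1 - (j : ℕ) = (w - (j : ℕ)) + 1 := by omega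
      simp only [h1]
      ring

lemma hcomp_mul {R τ : Type} [CommRing R] {F : MvPolynomial τ R} {w : ℕ} (hF : F.IsHomogeneous w)
    (h : MvPolynomial τ R) (d : ℕ) : homogeneousComponent d (F * h) =
      if w ≤ d then F * homogeneousComponent (d - w) h else 0 := by
  conv_lhs => rw [← sum_homogeneousComponent h, Finset.mul_sum, map_sum]
  have h1 : ∀ i, homogeneousComponent d (F * homogeneousComponent i h) =
      if d = w + i then F * homogeneousComponent i h else 0 := fun i =>
    homogeneousComponent_of_mem (hF.mul (homogeneousComponent_isHomogeneous i h))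
  simp only [h1]
  split_ifs with hd
  · rw [Finset.sum_eq_single (d - w)]
    · rw [if_pos (by omega)]
    · intro i _ hi
      rw [if_neg (by omega)]
    · intro hi
      rw [Finset.mem_range, not_lt] at hi
      rw [homogeneousComponent_eq_zero _ _ (by omega)]
      simp
  · refine Finset.sum_eq_zero fun i _ => ?_
    rw [if_neg (by omega)]

lemma homZ_mul {k A : Type} [Field k] {n a b : ℕ} {F G : MvPolynomial A (MvPolynomial (Zv n) k)}
    (hF : HomZ a F) (hG : HomZ b G) : HomZ (a + b) (F * G) := by
  classical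
  intro m
  rw [coeff_mul]
  exact IsHomogeneous.sum _ _ _ fun x _ => (hF x.1).mul (hG x.2)

lemma homZ_map {k A : Type} [Field k] {n : ℕ} (f : MvPolynomial A k) :
    HomZ 0 (MvPolynomial.map (C : k →+* MvPolynomial (Zv n) k) f) := by
  intro m
  rw [coeff_map]
  exact isHomogeneous_C _ _

section

variable {k L A : Type} [Field k] [Field L] [Algebra k L] (α : A → L) {n : ℕ}

/-- common denominators for finite families of forms -/
lemma denF (hgen : ∀ z : L, ∃ f g : MvPolynomial A k, aeval α g ≠ 0 ∧
    z * aeval α g = aeval α f) (w e : ℕ) (h : ℕ → MvPolynomial (Zv n) L)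
    (hh : ∀ j, (h j).IsHomogeneous e) :
    ∃ (b : MvPolynomial A k) (H : ℕ → MvPolynomial A (MvPolynomial (Zv n) k)), aeval α b ≠ 0 ∧
      (∀ j, HomZ e (H j)) ∧ ∀ j ∈ Finset.range (w + 1), C (aeval α b) * h j = ev α (H j) := by
  have h0 := fun j => denH α hgen (h j) e (hh j)
  choose b G h1 h2 h3 using h0
  refine ⟨∏ j ∈ Finset.range (w + 1), b j, fun j => MvPolynomial.map C
    (∏ i ∈ (Finset.range (w + 1)).erase j, b i) * G j, ?_, fun j => ?_, fun j hj => ?_⟩
  · rw [map_prod]
    exact Finset.prod_ne_zero_iff.2 fun j _ => h1 j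
  · have := homZ_mul (homZ_map (n := n) (∏ i ∈ (Finset.range (w + 1)).erase j, b i)) (h2 j)
    rwa [zero_add] at this
  · rw [ev_mul, ev_map_C, ← h3 j, ← mul_assoc, ← C_mul, ← map_mul, mul_comm,
      ← Finset.mul_prod_erase _ _ hj, mul_comm (b j)]
    rw [mul_comm]

end

/-- PEX -/
theorem pf_PEX (hPEO : T_PEO) (hBCH : T_BCH) (hTRD : T_TRD) : T_PEX := by
  intro k _ _ n r q β P hr hβ hq hP hH hS hX htr
  let L := FractionRing (MvPolynomial (Av q n) k)
  let α : Av q n → L := fun v => algebraMap (MvPolynomial (Av q n) k) L (X v)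
  have hae : ∀ f : MvPolynomial (Av q n) k, aeval α f = algebraMap (MvPolynomial (Av q n) k) L f := by
    intro f
    have h : (aeval α : MvPolynomial (Av q n) k →ₐ[k] L) = Algebra.algHom k _ L := by
      ext v
      simp only [aeval_X]
      rfl
    rw [h]
    rfl
  have hinj := IsFractionRing.injective (MvPolynomial (Av q n) k) L
  have hα : AlgebraicIndependent k α := by
    intro f g hfg
    rw [hae, hae] at hfg
    exact hinj hfg
  have hgen : ∀ z : L, ∃ f g : MvPolynomial (Av q n) k, aeval α g ≠ 0 ∧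
      z * aeval α g = aeval α f := by
    intro z
    obtain ⟨f, g, hg, hz⟩ := IsFractionRing.div_surjective (A := MvPolynomial (Av q n) k) z
    have hg' : algebraMap (MvPolynomial (Av q n) k) L g ≠ 0 :=
      (map_ne_zero_iff _ hinj).2 (nonZeroDivisors.ne_zero hg)
    refine ⟨f, g, ?_, ?_⟩
    · rw [hae]; exact hg'
    · rw [hae, hae, ← hz, div_mul_cancel₀ _ hg']
  have : Infinite L := Infinite.of_injective (algebraMap k L) (algebraMap k L).injective
  obtain ⟨P', hP', hH', htr', hmem⟩ := hBCH k (Av q n) (Zv n) P hP hH L α hα hgen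
  have hT1 : ∀ i, (ev α (T1 k n q i)).IsHomogeneous 1 := by
    intro i
    unfold T1
    rw [ev_sum]
    refine IsHomogeneous.sum _ _ _ fun s _ => ?_
    rw [ev_sum]
    refine IsHomogeneous.sum _ _ _ fun j _ => ?_
    rw [ev_mul, ev_mul, ev_X, ev_X, ev_C, map_X]
    exact ((isHomogeneous_C _ _).mul (isHomogeneous_C _ _)).mul (isHomogeneous_X _ _)
  have hT2 : ∀ i, (ev α (T2 k n q i)).IsHomogeneous 1 := by
    intro i
    unfold T2
    rw [ev_sum]
    refine IsHomogeneous.sum _ _ _ fun j _ => ?_
    rw [ev_mul, ev_X, ev_C, map_X]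
    have := (isHomogeneous_C (Zv n) (α (Sum.inl (i, j.succ)))).mul
      (isHomogeneous_X L ((0, j) : Zv n))
    rwa [zero_add] at this
  obtain ⟨N, w, c, G', g', hN, hw, hG', hG'P, hg'⟩ := hPEO L (Zv n) r β q P'
    (fun i => ev α (T1 k n q i)) (fun i => ev α (T2 k n q i)) hr hβ hq hP' hH'
    (htr'.trans htr) hT1 hT2 (by
      intro i Q hQ hQH hPQ h1 h2
      refine hTRD k n q β P hP hH hS hX htr.le L α hα hgen i Q hQ hQH ?_ h1 h2
      intro g hg
      apply hPQ
      rw [← ev_C α, hmem]
      intro m
      classical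
      rw [coeff_C]
      split_ifs
      · exact hg
      · exact P.zero_mem)
  have hCn : ∀ z : L, z ≠ 0 → (C z : MvPolynomial (Zv n) L) ∉ P' := by
    intro z hz h
    exact hP'.ne_top (Ideal.eq_top_of_isUnit_mem _ h ((isUnit_iff_ne_zero.2 hz).map C))
  -- forms over `L`
  have hrel : ∀ i, ∃ (e : ℕ) (h : ℕ → MvPolynomial (Zv n) L), e + w = N + c ∧
      (∀ j, (h j).IsHomogeneous e) ∧ g' i * G' - ∑ j ∈ Finset.range (w + 1),
        ev α (T1 k n q i) ^ j * ev α (T2 k n q i) ^ (w - j) * h j ∈ P' := by
    intro i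
    obtain ⟨h1, h2, h3⟩ := hg' i
    rw [Submodule.mem_sup] at h3
    obtain ⟨x, hx, p, hp, hxp⟩ := h3
    obtain ⟨h, hh⟩ := (Ideal.mem_span_range_iff_exists_fun).1 (pair_pow _ _ w hx)
    have hgG : (g' i * G').IsHomogeneous (c + N) := h1.mul hG'
    have hTw : ∀ j : Fin (w + 1), (ev α (T1 k n q i) ^ (j : ℕ) *
        ev α (T2 k n q i) ^ (w - j)).IsHomogeneous w := by
      intro j
      have := ((hT1 i).pow j).mul ((hT2 i).pow (w - j))
      have h5 : 1 * (j : ℕ) + 1 * (w - j) = w := by have := j.2; omega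
      rwa [h5] at this
    have hcomp : g' i * G' = homogeneousComponent (c + N) x +
        homogeneousComponent (c + N) p := by
      rw [← map_add, hxp, homogeneousComponent_eq_self hgG]
    have hxc : homogeneousComponent (c + N) x = ∑ j : Fin (w + 1), if w ≤ c + N then
        (ev α (T1 k n q i) ^ (j : ℕ) * ev α (T2 k n q i) ^ (w - j)) *
          homogeneousComponent (c + N - w) (h j) else 0 := by
      rw [← hh, map_sum]
      refine Finset.sum_congr rfl fun j _ => ?_
      rw [mul_comm, hcomp_mul (hTw j)]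
    by_cases hwc : w ≤ c + N
    · refine ⟨c + N - w, fun j => if hj : j < w + 1 then
        homogeneousComponent (c + N - w) (h ⟨j, hj⟩) else 0, by omega, fun j => ?_, ?_⟩
      · show (if hj : j < w + 1 then
          homogeneousComponent (c + N - w) (h ⟨j, hj⟩) else 0 : MvPolynomial (Zv n) L).IsHomogeneous _
        split_ifs
        · exact homogeneousComponent_isHomogeneous _ _
        · exact isHomogeneous_zero _ _ _
      · have h6 : ∑ j ∈ Finset.range (w + 1),
            ev α (T1 k n q i) ^ j * ev α (T2 k n q i) ^ (w - j) * (if hj : j < w + 1 then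
              homogeneousComponent (c + N - w) (h ⟨j, hj⟩) else 0) =
            homogeneousComponent (c + N) x := by
          rw [Finset.sum_range, hxc]
          refine Finset.sum_congr rfl fun j _ => ?_
          rw [dif_pos j.2, if_pos hwc]
        rw [h6, hcomp, add_sub_cancel_left]
        exact hH' p hp _
    · exfalso
      rw [hxc] at hcomp
      simp only [if_neg hwc, Finset.sum_const_zero, zero_add] at hcomp
      have h7 : g' i * G' ∈ P' := by rw [hcomp]; exact hH' p hp _
      rcases hP'.mem_or_mem h7 with h8 | h8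
      · exact h2 h8
      · exact hG'P h8
  choose e h' he hh' hr' using hrel
  -- denominators
  obtain ⟨bG, G, hbG, hGN, hGe⟩ := denH α hgen G' N hG'
  have hd1 := fun i => denH α hgen (g' i) c (hg' i).1
  choose bg g hbg hgc hge using hd1
  have hd2 := fun i => denF α hgen w (e i) (h' i) (hh' i)
  choose bh h hbh hhe hhev using hd2
  refine ⟨N, w, c, G, fun i => MvPolynomial.map C (bh i) * g i, hN, hw, hGN, ?_, ?_, ?_⟩
  · intro i
    have := homZ_mul (homZ_map (n := n) (bh i)) (hgc i)
    rwa [zero_add] at this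
  · intro hIn
    have h1 := (hmem _).2 hIn
    rw [ev_mul, ev_prod, ← hGe] at h1
    rcases hP'.mem_or_mem h1 with h2 | h2
    · rcases hP'.mem_or_mem h2 with h3 | h3
      · exact hCn _ hbG h3
      · exact hG'P h3
    · obtain ⟨i, _, hi⟩ := hP'.prod_mem_iff.1 h2
      rw [ev_mul, ev_map_C, ← hge] at hi
      rcases hP'.mem_or_mem hi with h3 | h3
      · exact hCn _ (hbh i) h3
      · rcases hP'.mem_or_mem h3 with h4 | h4
        · exact hCn _ (hbg i) h4
        · exact (hg' i).2.1 h4
  · intro i
    refine ⟨e i, fun j => MvPolynomial.map C (bG * bg i) * h i j, he i, fun j => ?_, ?_⟩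
    · have := homZ_mul (homZ_map (n := n) (bG * bg i)) (hhe i j)
      rwa [zero_add] at this
    · refine (hmem _).1 ?_
      have h1 : ev α (MvPolynomial.map C (bh i) * g i * G - ∑ j ∈ Finset.range (w + 1),
          T1 k n q i ^ j * T2 k n q i ^ (w - j) * (MvPolynomial.map C (bG * bg i) * h i j)) =
          C (aeval α (bh i) * aeval α (bg i) * aeval α bG) * (g' i * G' -
            ∑ j ∈ Finset.range (w + 1),
              ev α (T1 k n q i) ^ j * ev α (T2 k n q i) ^ (w - j) * h' i j) := by
        rw [ev_sub, ev_mul, ev_mul, ev_map_C, ← hge, ← hGe, ev_sum, mul_sub, Finset.mul_sum]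
        congr 1
        · simp only [C_mul]
          ring
        · refine Finset.sum_congr rfl fun j hj => ?_
          rw [ev_mul, ev_mul, ev_mul, ev_pow, ev_pow, ev_map_C, ← hhev i j hj, map_mul]
          simp only [C_mul]
          ring
      rw [h1]
      exact Ideal.mul_mem_left _ _ (hr' i)

end Pool.Agent.H3.AV
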